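import Mathlib

open Filter Topology MeasureTheory Complex

namespace Pool.Agent.Results.MP_e7d22a_nt.Yes

noncomputable def lat (a b : ℤ) : ℂ := a + b * (1 / 2 + √3 / 2 * I)

def TBG {k : ℕ} (θ : Fin k → ℝ) (x : Fin k → ℂ) : Set ℂ :=
  {y | ∃ i : Fin k, ∃ a b : ℤ, y = exp (θ i * I) * lat a b + x i}

def DenseForest (Y : Set ℂ) : Prop :=
  ∃ V : ℝ → ℝ, ∀ ε : ℝ, 0 < ε → ε < 1 → 0 < V ε ∧ ∀ p q : ℂ, dist p q = V ε →
    ∃ z ∈ segment ℝ p q, ∃ y ∈ Y, dist z y ≤ ε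

theorem lat_re (a b : ℤ) : (lat a b).re = a + b / 2 := by simp [lat]; ring

theorem lat_im (a b : ℤ) : (lat a b).im = b * (√3 / 2) := by simp [lat]

theorem lat_add (a b c d : ℤ) : lat (a + c) (b + d) = lat a b + lat c d := by
  simp only [lat]; push_cast; ring

theorem near (z : ℂ) : ∃ a b : ℤ, ‖z - lat a b‖ ≤ 2 := by
  have h3 : (0 : ℝ) < √3 / 2 := by positivity
  have h4 : √3 / 2 ≤ (1 : ℝ) := by
    have : √3 ≤ (2 : ℝ) := Real.sqrt_le_iff.2 ⟨by norm_num, by norm_num⟩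
    linarith
  refine ⟨⌊z.re - (⌊z.im / (√3 / 2)⌋ : ℝ) / 2⌋, ⌊z.im / (√3 / 2)⌋,
    (norm_le_abs_re_add_abs_im _).trans ?_⟩
  rw [sub_re, sub_im, lat_re, lat_im]
  have a1 := Int.floor_le (z.re - (⌊z.im / (√3 / 2)⌋ : ℝ) / 2)
  have a2 := Int.lt_floor_add_one (z.re - (⌊z.im / (√3 / 2)⌋ : ℝ) / 2)
  have a3 := Int.floor_le (z.im / (√3 / 2))
  have a4 := Int.lt_floor_add_one (z.im / (√3 / 2))
  rw [le_div_iff₀ h3] at a3
  rw [div_lt_iff₀ h3] at a4
  have b1 : |z.re - (⌊z.re - (⌊z.im / (√3 / 2)⌋ : ℝ) / 2⌋ + (⌊z.im / (√3 / 2)⌋ : ℝ) / 2)| ≤ 1 := by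
    rw [abs_le]; constructor <;> linarith
  have b2 : |z.im - (⌊z.im / (√3 / 2)⌋ : ℝ) * (√3 / 2)| ≤ 1 := by
    rw [abs_le]; constructor <;> linarith
  linarith

theorem kron (w y : ℂ) (hw : ∀ a b : ℤ, (lat a b * (starRingEnd ℂ) w).im = 0 → a = 0 ∧ b = 0)
    (hn : ‖w‖ = 1) (η : ℝ) (hη : 0 < η) : ∃ t : ℝ, ∃ a b : ℤ, ‖y + t * w - lat a b‖ < η := by
  obtain ⟨A, hA⟩ : ∃ A, A = (lat 1 0 * (starRingEnd ℂ) w).im := ⟨_, rfl⟩
  obtain ⟨B, hB⟩ : ∃ B, B = (lat 0 1 * (starRingEnd ℂ) w).im := ⟨_, rfl⟩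
  have hl : ∀ a b : ℤ, (lat a b * (starRingEnd ℂ) w).im = a * A + b * B := by
    intro a b
    rw [hA, hB]
    simp only [mul_im, lat_re, lat_im]
    push_cast
    ring
  have hB0 : B ≠ 0 := fun h => by simpa using (hw 0 1 (by rw [hl, h]; simp)).2
  have hirr : Irrational (A / B) := by
    rintro ⟨r, hr⟩
    have h1 : (r.den : ℝ) ≠ 0 := by exact_mod_cast r.den_ne_zero
    rw [Rat.cast_def, div_eq_div_iff h1 hB0] at hr
    have := (hw r.den (-r.num) (by rw [hl]; push_cast; linarith)).1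
    exact r.den_ne_zero (by exact_mod_cast this)
  obtain ⟨s, hs, hd⟩ := Metric.mem_closure_iff.1
    (dense_addSubgroupClosure_pair_iff.2 hirr (y * (starRingEnd ℂ) w).im) η hη
  obtain ⟨a, b, rfl⟩ := AddSubgroup.mem_closure_pair.1 hs
  refine ⟨-((y - lat a b) * (starRingEnd ℂ) w).re, a, b, ?_⟩
  have hc : w * (starRingEnd ℂ) w = 1 := by rw [mul_conj, normSq_eq_norm_sq, hn]; simp
  have e : y + ((-((y - lat a b) * (starRingEnd ℂ) w).re : ℝ) : ℂ) * w - lat a b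
      = (((y - lat a b) * (starRingEnd ℂ) w).im * I) * w := by
    have := re_add_im ((y - lat a b) * (starRingEnd ℂ) w)
    push_cast
    linear_combination (-w) * this - (y - lat a b) * hc
  rw [e, norm_mul, norm_mul, hn, norm_I, mul_one, mul_one, norm_real, Real.norm_eq_abs, sub_mul,
    sub_im, hl]
  simpa [Real.dist_eq] using hd

theorem forest {k : ℕ} (θ : Fin k → ℝ) (x : Fin k → ℂ)
    (h : ∀ v : ℂ, ‖v‖ = 1 → ∃ i, ∀ a b : ℤ,
      (exp (θ i * I) * lat a b * (starRingEnd ℂ) v).im = 0 → a = 0 ∧ b = 0) :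
    DenseForest (TBG θ x) := by
  suffices H : ∀ ε : ℝ, 0 < ε → ∃ V : ℝ, 0 < V ∧ ∀ p q : ℂ, dist p q = V →
      ∃ z ∈ segment ℝ p q, ∃ y ∈ TBG θ x, dist z y ≤ ε by
    choose! V hV using H
    exact ⟨V, fun ε h1 _ => hV ε h1⟩
  intro ε hε
  by_contra hc
  push Not at hc
  choose p q hpq hfar using fun n : ℕ => hc (2 * (n + 1)) (by positivity)
  have he : ∀ i, ‖exp (θ i * I)‖ = 1 := fun i => norm_exp_ofReal_mul_I _
  have he0 : ∀ i, exp (θ i * I) ≠ 0 := fun i => exp_ne_zero _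
  choose a b hab using fun (n : ℕ) (i : Fin k) => near (((p n + q n) / 2 - x i) / exp (θ i * I))
  let v : ℕ → ℂ := fun n => (q n - p n) / (2 * (n + 1))
  have hv : ∀ n, ‖v n‖ = 1 := by
    intro n
    have h1 := hpq n
    rw [dist_comm, dist_eq_norm] at h1
    have : ‖(2 * (n + 1) : ℂ)‖ = 2 * (n + 1) := by
      rw [show (2 * (n + 1) : ℂ) = ((2 * (n + 1) : ℝ) : ℂ) by push_cast; ring, norm_real,
        Real.norm_eq_abs, abs_of_pos (by positivity)]
    simp only [v]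
    rw [norm_div, h1, this, div_self (by positivity)]
  obtain ⟨⟨v0, y0⟩, hmem, φ, hφ, hlim⟩ :=
    ((isCompact_sphere (0 : ℂ) 1).prod (isCompact_closedBall (0 : Fin k → ℂ) 2)).tendsto_subseq
    (x := fun n : ℕ => (v n, fun i => ((p n + q n) / 2 - x i) / exp (θ i * I) - lat (a n i) (b n i)))
    (fun n => ⟨by simpa using hv n, by
      rw [mem_closedBall_zero_iff, pi_norm_le_iff_of_nonneg (by norm_num)]
      exact hab n⟩)
  have hv0 : ‖v0‖ = 1 := by simpa using hmem.1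
  obtain ⟨i, hi⟩ := h v0 hv0
  obtain ⟨t, c, d, ht⟩ := kron (v0 / exp (θ i * I)) (y0 i) (fun a b h0 => hi a b (by
    rw [← h0, map_div₀, ← exp_conj]
    simp only [map_mul, conj_ofReal, conj_I, mul_neg, exp_neg]
    congr 1
    field_simp)) (by rw [norm_div, hv0, he, div_one]) ε hε
  have l1 : Tendsto (fun n => v (φ n)) atTop (𝓝 v0) := (continuous_fst.tendsto _).comp hlim
  have l2 : Tendsto (fun n => ((p (φ n) + q (φ n)) / 2 - x i) / exp (θ i * I)
      - lat (a (φ n) i) (b (φ n) i)) atTop (𝓝 (y0 i)) :=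
    (((continuous_apply i).comp continuous_snd).tendsto _).comp hlim
  have l3 := ((l2.add ((l1.div_const (exp (θ i * I))).const_mul (t : ℂ))).sub_const
    (lat c d)).norm
  obtain ⟨M, hM⟩ := exists_nat_ge |t|
  obtain ⟨n, hn1, hn2⟩ := ((l3.eventually (gt_mem_nhds ht)).and (eventually_ge_atTop M)).exists
  have hn3 : |t| ≤ φ n := hM.trans (by exact_mod_cast hn2.trans hφ.le_apply)
  obtain ⟨m, hm⟩ : ∃ m, m = φ n := ⟨_, rfl⟩
  rw [← hm] at hn1 hn3
  have hpos : (0 : ℝ) < 2 * (m + 1) := by positivity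
  have ht2 := abs_le.1 hn3
  have := hfar m ((p m + q m) / 2 + t * v m)
    ⟨1 / 2 - t / (2 * (m + 1)), 1 / 2 + t / (2 * (m + 1)), by
      rw [sub_nonneg, div_le_iff₀ hpos]; linarith [ht2.2], by
      rw [← neg_le_iff_add_nonneg', le_div_iff₀ hpos]; linarith [ht2.1], by ring, by
      simp only [v, real_smul]; push_cast; ring⟩
    (exp (θ i * I) * lat (a m i + c) (b m i + d) + x i) ⟨i, _, _, rfl⟩
  rw [dist_eq_norm] at this
  have e : (p m + q m) / 2 + t * v m - (exp (θ i * I) * lat (a m i + c) (b m i + d) + x i)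
      = exp (θ i * I) * (((p m + q m) / 2 - x i) / exp (θ i * I) - lat (a m i) (b m i)
        + t * (v m / exp (θ i * I)) - lat c d) := by
    have := he0 i
    rw [lat_add]; field_simp; ring
  rw [e, norm_mul, he, one_mul] at this
  linarith

theorem cnt (z : ℂ) (hz : z ≠ 0) : {φ : ℝ | (exp (φ * I) * z).im = 0}.Countable := by
  have h1 : ({(‖z‖ : ℂ) / z, -(‖z‖ : ℂ) / z} : Set ℂ).Countable := Set.toFinite _ |>.countable
  have h2 := (countable_preimage_exp.2 h1).preimage_of_injOn (f := fun φ : ℝ => (φ : ℂ) * I)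
    (fun a _ b _ hab => by simpa using hab)
  refine h2.mono fun φ hφ => ?_
  have h3 : |(exp (φ * I) * z).re| = ‖z‖ := by
    rw [abs_re_eq_norm.2 hφ, norm_mul, norm_exp_ofReal_mul_I, one_mul]
  have h4 : exp (φ * I) * z = ((exp (φ * I) * z).re : ℂ) := by
    apply Complex.ext
    · rfl
    · exact hφ
  rcases abs_eq (norm_nonneg z) |>.1 h3 with h5 | h5
  · left
    rw [eq_div_iff hz, h4, h5]
  · right
    rw [Set.mem_singleton_iff, eq_div_iff hz, h4, h5]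
    simp

theorem lat_ne {a b : ℤ} (h : ¬ (a = 0 ∧ b = 0)) : lat a b ≠ 0 := by
  intro h0
  have h1 := lat_im a b
  have h2 := lat_re a b
  rw [h0] at h1 h2
  have hb : b = 0 := by
    have : (0 : ℝ) < √3 / 2 := by positivity
    exact_mod_cast (mul_eq_zero.1 h1.symm).resolve_right this.ne'
  subst hb
  exact h ⟨by simpa using h2.symm, rfl⟩

theorem result (k : ℕ) (hk : 2 ≤ k) :
    ∀ᵐ P : (Fin k → ℝ) × (Fin k → ℂ), DenseForest (TBG P.1 P.2) := by
  let i0 : Fin k := ⟨0, by omega⟩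
  let i1 : Fin k := ⟨1, by omega⟩
  let C : Set ℝ := ⋃ a : ℤ, ⋃ b : ℤ, ⋃ c : ℤ, ⋃ d : ℤ, ⋃ _ : lat a b / lat c d ≠ 0,
    {φ : ℝ | (exp (φ * I) * (lat a b / lat c d)).im = 0}
  have hC : C.Countable := Set.countable_iUnion fun a => Set.countable_iUnion fun b =>
    Set.countable_iUnion fun c => Set.countable_iUnion fun d => Set.countable_iUnion fun h =>
      cnt _ h
  have h1 : ∀ᵐ P : (Fin k → ℝ) × (Fin k → ℂ), ∀ c ∈ C, P.1 i0 - P.1 i1 ≠ c := by
    refine (ae_ball_iff hC).2 fun c _ => ?_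
    let f : ((Fin k → ℝ) × (Fin k → ℂ)) →ₗ[ℝ] ℝ :=
      (LinearMap.proj (R := ℝ) (φ := fun _ : Fin k => ℝ) i0 -
        LinearMap.proj (R := ℝ) (φ := fun _ : Fin k => ℝ) i1) ∘ₗ LinearMap.fst ℝ _ _
    have hH : (volume : Measure ((Fin k → ℝ) × (Fin k → ℂ))).IsAddHaarMeasure :=
      Measure.prod.instIsAddHaarMeasure _ _
    have := Measure.addHaar_affineSubspace (volume : Measure ((Fin k → ℝ) × (Fin k → ℂ)))
      ((AffineSubspace.mk' c ⊥).comap f.toAffineMap) (by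
        intro h
        have h2 : ((Pi.single i0 (c + 1), 0) : (Fin k → ℝ) × (Fin k → ℂ)) ∈
          (AffineSubspace.mk' c ⊥).comap f.toAffineMap := h ▸ AffineSubspace.mem_top _ _ _
        have h3 : i1 ≠ i0 := by simp [i0, i1]
        simp [f, h3] at h2)
    rw [ae_iff]
    refine measure_mono_null (fun P hP => ?_) this
    simpa [f, sub_eq_zero] using hP
  filter_upwards [h1] with P hP
  refine forest _ _ fun v hv => ?_
  by_contra hc
  push Not at hc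
  obtain ⟨a, b, h2, h3⟩ := hc i0
  obtain ⟨c, d, h4, h5⟩ := hc i1
  have n1 : lat a b ≠ 0 := lat_ne fun h => h3 h.1 h.2
  have n2 : lat c d ≠ 0 := lat_ne fun h => h5 h.1 h.2
  refine hP _ ?_ rfl
  simp only [C, Set.mem_iUnion]
  refine ⟨a, b, c, d, div_ne_zero n1 n2, ?_⟩
  have hv0 : (starRingEnd ℂ) v ≠ 0 := by
    intro h
    have : v = 0 := by simpa using h
    simp [this] at hv
  have e : exp (((P.1 i0 - P.1 i1 : ℝ) : ℂ) * I) * (lat a b / lat c d)
      = (exp (P.1 i0 * I) * lat a b * (starRingEnd ℂ) v) /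
        (exp (P.1 i1 * I) * lat c d * (starRingEnd ℂ) v) := by
    have := exp_ne_zero (P.1 i1 * I)
    push_cast
    rw [sub_mul, exp_sub]
    field_simp
  show (exp (((P.1 i0 - P.1 i1 : ℝ) : ℂ) * I) * (lat a b / lat c d)).im = 0
  rw [e, div_im, h2, h4]
  simp

end Pool.Agent.Results.MP_e7d22a_nt.Yes
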